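import Pool.Agent.Helper3.FC.Goals

/-!
# Project FC, packet F56
-/

set_option autoImplicit false

namespace Pool.Agent.Helper70.FC.F56

open scoped Classical BigOperators
open Pool.Agent.Helper3.FC

theorem f5 : F5 := by
  intro m n w kz L η W hη0 hη1 l i
  constructor
  · unfold World.x
    apply div_nonneg _ (Nat.cast_nonneg L)
    apply Finset.sum_nonneg
    intro j hj
    apply Finset.sum_nonneg
    intro g _
    apply mul_nonneg _ (W.yX_nonneg j (Finset.mem_range.1 hj) g)
    split_ifs
    · exact Finset.prod_nonneg fun l' _ => W.ρ_nonneg l' (g l')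
    · exact le_refl 0
  · intro hF
    unfold World.x
    have h : (∑ j ∈ Finset.range L, ∑ g : ∀ l, W.J l,
      (if g l = i then ∏ l' ∈ Finset.univ.erase l, W.ρ l' (g l') else 0) * W.yX j g) = 0 := by
      apply Finset.sum_eq_zero
      intro j hj
      apply Finset.sum_eq_zero
      intro g _
      by_cases hg : g l = i
      · have hn : ¬ ∀ l, W.F l (g l) := by
          intro h
          apply hF
          rw [← hg]
          exact h l
        have h1 := W.yX_chain j (Finset.mem_range.1 hj) g
        rw [if_neg hn, mul_zero, zero_mul] at h1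
        have h2 := W.yX_nonneg j (Finset.mem_range.1 hj) g
        have h3 : W.yX j g = 0 := le_antisymm h1 h2
        rw [h3, mul_zero]
      · rw [if_neg hg, zero_mul]
    rw [h, zero_div]

theorem f6aux {m n w kz L : ℕ} {η : ℝ} (W : World m n w kz L η) (l : Fin n) :
    ∑ i, W.ρ l i * W.x l i = W.X := by
  unfold World.x World.X World.YX World.R
  have h1 : ∀ i, W.ρ l i * ((∑ j ∈ Finset.range L, ∑ g : ∀ l, W.J l,
      (if g l = i then ∏ l' ∈ Finset.univ.erase l, W.ρ l' (g l') else 0) * W.yX j g) / L) =
      (∑ j ∈ Finset.range L, ∑ g : ∀ l, W.J l,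
        (if g l = i then ∏ l', W.ρ l' (g l') else 0) * W.yX j g) / L := by
    intro i
    rw [mul_div_assoc', Finset.mul_sum]
    apply congrArg (fun t : ℝ => t / (L : ℝ))
    apply Finset.sum_congr rfl
    intro j _
    rw [Finset.mul_sum]
    apply Finset.sum_congr rfl
    intro g _
    by_cases hg : g l = i
    · rw [if_pos hg, if_pos hg, ← mul_assoc, ← hg,
        Finset.mul_prod_erase Finset.univ (fun l' => W.ρ l' (g l')) (Finset.mem_univ l)]
    · rw [if_neg hg, if_neg hg, zero_mul, mul_zero]
  rw [Finset.sum_congr rfl (fun i _ => h1 i), ← Finset.sum_div]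
  apply congrArg (fun t : ℝ => t / (L : ℝ))
  rw [Finset.sum_comm]
  apply Finset.sum_congr rfl
  intro j _
  rw [Finset.sum_comm]
  apply Finset.sum_congr rfl
  intro g _
  rw [← Finset.sum_mul, Finset.sum_ite_eq, if_pos (Finset.mem_univ _)]

theorem f6 : F6 := by
  intro m n w kz L η W hn
  unfold World.E
  rw [Finset.sum_congr rfl (fun l _ => f6aux W l), Finset.sum_const, Finset.card_univ,
    Fintype.card_fin, nsmul_eq_mul]
  have h : (n : ℝ) ≠ 0 := by
    have : 0 < n := hn
    exact_mod_cast this.ne'
  field_simp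

theorem t : F5 ∧ F6 := ⟨f5, f6⟩

end Pool.Agent.Helper70.FC.F56
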